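import Mathlib

/-!
# Occupancy: full patterns exist with high probability

Coordinates `i : ι` receive independent uniform patterns `s i : Fin ζ → Fin b`. Groups of `M` coordinates
are indexed by `Option (Fin ζ × Fin L)`. With high probability some coordinate of the group `none` has a
pattern `c` such that for all `(j, l)` the group `some (j, l)` contains a coordinate `i'` with
`s i' j = c j`.
-/

set_option autoImplicit false

open Finset

namespace Pool.Agent.U139.OSI

section resample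

variable {ι P : Type*} [Fintype ι] [DecidableEq ι] [Fintype P] [DecidableEq P]

/-- exchange the values on a group of coordinates with a fresh sample -/
noncomputable def exch {m : ℕ} (g : Fin m → ι) (hg : Function.Injective g) :
    ((ι → P) × (Fin m → P)) ≃ ((ι → P) × (Fin m → P)) where
  toFun z := (Function.extend g z.2 z.1, z.1 ∘ g)
  invFun z := (Function.extend g z.2 z.1, z.1 ∘ g)
  left_inv := by
    rintro ⟨s, x⟩
    ext i
    · simp only
      by_cases h : ∃ a, g a = i
      · obtain ⟨a, rfl⟩ := h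
        rw [hg.extend_apply]; rfl
      · rw [Function.extend_apply' _ _ _ h, Function.extend_apply' _ _ _ h]
    · simp only [Function.comp]
      rw [hg.extend_apply]
  right_inv := by
    rintro ⟨s, x⟩
    ext i
    · simp only
      by_cases h : ∃ a, g a = i
      · obtain ⟨a, rfl⟩ := h
        rw [hg.extend_apply]; rfl
      · rw [Function.extend_apply' _ _ _ h, Function.extend_apply' _ _ _ h]
    · simp only [Function.comp]
      rw [hg.extend_apply]

/-- If for every `s` at most a share `c` of the resamplings of the group `g` satisfies `B`, then at most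
a share `c` of all `s` satisfies `B`. -/
lemma card_le_of_resample {m : ℕ} (g : Fin m → ι) (hg : Function.Injective g)
    (B : (ι → P) → Prop) [DecidablePred B] (c : ℝ)
    (h : ∀ s : ι → P, ((univ.filter fun x : Fin m → P => B (Function.extend g x s)).card : ℝ) ≤
      c * (Fintype.card P : ℝ) ^ m) [Nonempty P] :
    ((univ.filter B).card : ℝ) ≤ c * (Fintype.card (ι → P) : ℝ) := by
  classical
  have h1 : ∑ z : (ι → P) × (Fin m → P), (if B (exch g hg z).1 then (1 : ℝ) else 0) =
      ∑ z : (ι → P) × (Fin m → P), (if B z.1 then (1 : ℝ) else 0) :=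
    Equiv.sum_comp (exch g hg) fun z => if B z.1 then (1 : ℝ) else 0
  rw [Fintype.sum_prod_type, Fintype.sum_prod_type] at h1
  have h2 : ∀ s : ι → P, ∑ x : Fin m → P, (if B (exch g hg (s, x)).1 then (1 : ℝ) else 0) ≤
      c * (Fintype.card P : ℝ) ^ m := by
    intro s
    refine le_trans (le_of_eq ?_) (h s)
    rw [card_filter]
    push_cast
    rfl
  have h3 : ∑ s : ι → P, ∑ x : Fin m → P, (if B s then (1 : ℝ) else 0) =
      ((univ.filter B).card : ℝ) * (Fintype.card P : ℝ) ^ m := by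
    simp only [sum_const, card_univ, Fintype.card_pi_const, nsmul_eq_mul]
    rw [← mul_sum, card_filter]
    push_cast
    ring
  simp only at h1
  rw [h3] at h1
  have h4 := sum_le_sum fun s (_ : s ∈ (univ : Finset (ι → P))) => h2 s
  rw [h1, sum_const, card_univ, nsmul_eq_mul] at h4
  have hP : (0 : ℝ) < (Fintype.card P : ℝ) ^ m := by
    have : 0 < Fintype.card P := Fintype.card_pos
    positivity
  have h5 : (((univ.filter B).card : ℝ)) * (Fintype.card P : ℝ) ^ m ≤
      (c * (Fintype.card (ι → P) : ℝ)) * (Fintype.card P : ℝ) ^ m := by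
    refine h4.trans (le_of_eq ?_)
    ring
  exact le_of_mul_le_mul_right h5 hP

end resample

section single

variable {ζ b : ℕ}

/-- the number of patterns with prescribed `j`-th entry -/
lemma card_fiber (j : Fin ζ) (T : Finset (Fin b)) :
    (((univ : Finset (Fin ζ → Fin b)).filter fun p => p j ∈ T).card : ℝ) =
      T.card * (b : ℝ) ^ (ζ - 1) := by
  classical
  have h1 : ((univ : Finset (Fin ζ → Fin b)).filter fun p => p j ∈ T) =
      Fintype.piFinset (fun k => if k = j then T else univ) := by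
    ext p
    simp only [mem_filter, mem_univ, true_and, Fintype.mem_piFinset]
    constructor
    · intro h k
      split_ifs with hk
      · rw [hk]; exact h
      · exact mem_univ _
    · intro h
      have := h j
      simpa using this
  rw [h1, Fintype.card_piFinset]
  have h2 : ∀ k : Fin ζ, (if k = j then T else univ : Finset (Fin b)).card =
      if k = j then T.card else b := by
    intro k
    split_ifs
    · rfl
    · simp
  simp only [h2]
  rw [← Finset.mul_prod_erase univ _ (mem_univ j)]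
  rw [if_pos rfl]
  rw [Finset.prod_congr rfl (g := fun _ => b) (fun k hk => by
    rw [if_neg (Finset.ne_of_mem_erase hk)])]
  rw [prod_const, card_erase_of_mem (mem_univ j), card_univ, Fintype.card_fin]
  push_cast
  ring

lemma card_pat (hζ : 1 ≤ ζ) : (Fintype.card (Fin ζ → Fin b) : ℝ) = b * (b : ℝ) ^ (ζ - 1) := by
  rw [Fintype.card_fun, Fintype.card_fin, Fintype.card_fin, ← pow_succ', Nat.sub_add_cancel hζ]
  push_cast
  rfl

/-- the patterns in `A` whose `j`-th entry is hit by the group `x` -/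
def hit {M : ℕ} (A : Finset (Fin ζ → Fin b)) (j : Fin ζ) (x : Fin M → Fin ζ → Fin b) :
    Finset (Fin ζ → Fin b) := A.filter fun c => ∃ a, x a j = c j

/-- indicator that `p` does not have the same `j`-th entry as `c` -/
noncomputable def phi (j : Fin ζ) (c p : Fin ζ → Fin b) : ℝ := if p j = c j then 0 else 1

/-- number of unhit patterns -/
noncomputable def U {M : ℕ} (A : Finset (Fin ζ → Fin b)) (j : Fin ζ) (x : Fin M → Fin ζ → Fin b) : ℝ :=
  ∑ c ∈ A, ∏ a, phi j c (x a)

lemma U_eq {M : ℕ} (A : Finset (Fin ζ → Fin b)) (j : Fin ζ) (x : Fin M → Fin ζ → Fin b) :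
    U A j x = A.card - (hit A j x).card := by
  have h1 : ∀ c ∈ A, ∏ a, phi j c (x a) = 1 - (if ∃ a, x a j = c j then (1 : ℝ) else 0) := by
    intro c _
    split_ifs with h
    · obtain ⟨a, ha⟩ := h
      rw [sub_self]
      exact prod_eq_zero (mem_univ a) (by simp [phi, ha])
    · push Not at h
      rw [sub_zero]
      exact prod_eq_one fun a _ => by simp [phi, h a]
  unfold U
  rw [sum_congr rfl h1, sum_sub_distrib]
  congr 1
  · simp
  · unfold hit
    rw [card_filter]
    push_cast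
    rfl

lemma sum_phi (hζ : 1 ≤ ζ) (j : Fin ζ) (c : Fin ζ → Fin b) :
    ∑ p, phi j c p = ((b : ℝ) - 1) * (b : ℝ) ^ (ζ - 1) := by
  have h1 : ∀ p, phi j c p = 1 - (if p j ∈ ({c j} : Finset (Fin b)) then (1 : ℝ) else 0) := by
    intro p
    unfold phi
    simp only [mem_singleton]
    split_ifs <;> norm_num
  simp only [h1, sum_sub_distrib, sum_const, card_univ, nsmul_eq_mul, mul_one]
  have h2 := card_fiber j ({c j} : Finset (Fin b))
  rw [card_filter] at h2
  push_cast at h2
  rw [h2, card_pat hζ, card_singleton]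
  push_cast
  ring

lemma sum_phi_phi (hζ : 1 ≤ ζ) (j : Fin ζ) (c c' : Fin ζ → Fin b) (h : c j ≠ c' j) :
    ∑ p, phi j c p * phi j c' p = ((b : ℝ) - 2) * (b : ℝ) ^ (ζ - 1) := by
  have h1 : ∀ p, phi j c p * phi j c' p =
      1 - (if p j ∈ ({c j, c' j} : Finset (Fin b)) then (1 : ℝ) else 0) := by
    intro p
    unfold phi
    simp only [mem_insert, mem_singleton]
    by_cases h1 : p j = c j <;> by_cases h2 : p j = c' j <;> simp [h1, h2]
  simp only [h1, sum_sub_distrib, sum_const, card_univ, nsmul_eq_mul, mul_one]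
  have h2 := card_fiber j ({c j, c' j} : Finset (Fin b))
  rw [card_filter] at h2
  push_cast at h2
  rw [h2, card_pat hζ, card_pair h]
  push_cast
  ring

lemma phi_sq (j : Fin ζ) (c c' p : Fin ζ → Fin b) (h : c j = c' j) :
    phi j c p * phi j c' p = phi j c p := by
  unfold phi
  rw [← h]
  split_ifs <;> norm_num

variable (hζ : 1 ≤ ζ) (hb : 1 ≤ b)
include hζ hb

lemma sum_U {M : ℕ} (A : Finset (Fin ζ → Fin b)) (j : Fin ζ) :
    ∑ x : Fin M → Fin ζ → Fin b, U A j x =
      A.card * (1 - 1 / (b : ℝ)) ^ M * (Fintype.card (Fin ζ → Fin b) : ℝ) ^ M := by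
  unfold U
  rw [sum_comm]
  have h1 : ∀ c ∈ A, ∑ x : Fin M → Fin ζ → Fin b, ∏ a, phi j c (x a) =
      ((1 - 1 / (b : ℝ)) * (Fintype.card (Fin ζ → Fin b) : ℝ)) ^ M := by
    intro c _
    rw [← Fintype.sum_pow, sum_phi hζ, card_pat hζ]
    have : (b : ℝ) ≠ 0 := by positivity
    congr 1
    field_simp
  rw [sum_congr rfl h1, sum_const, nsmul_eq_mul, mul_pow, mul_assoc]

lemma sum_U_sq {M : ℕ} (A : Finset (Fin ζ → Fin b)) (j : Fin ζ) :
    ∑ x : Fin M → Fin ζ → Fin b, U A j x ^ 2 ≤
      ((A.card : ℝ) ^ 2 * ((1 - 1 / (b : ℝ)) ^ M) ^ 2 +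
        A.card * (b : ℝ) ^ (ζ - 1) * (1 - 1 / (b : ℝ)) ^ M) *
        (Fintype.card (Fin ζ → Fin b) : ℝ) ^ M := by
  have hb0 : (0 : ℝ) < b := by exact_mod_cast hb
  set N : ℝ := (Fintype.card (Fin ζ → Fin b) : ℝ) with hN
  have hN0 : 0 ≤ N := Nat.cast_nonneg _
  set ρ : ℝ := (1 - 1 / (b : ℝ)) ^ M with hρ
  have h1b : (1 : ℝ) / b ≤ 1 := by
    rw [div_le_one hb0]; exact_mod_cast hb
  have hρ0 : 0 ≤ ρ := pow_nonneg (by linarith) _
  have h1 : ∀ x : Fin M → Fin ζ → Fin b, U A j x ^ 2 =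
      ∑ c ∈ A, ∑ c' ∈ A, ∏ a, (phi j c (x a) * phi j c' (x a)) := by
    intro x
    unfold U
    rw [sq, sum_mul_sum]
    refine sum_congr rfl fun c _ => sum_congr rfl fun c' _ => ?_
    rw [prod_mul_distrib]
  simp only [h1]
  rw [sum_comm]
  have h2 : ∀ c ∈ A, ∑ x : Fin M → Fin ζ → Fin b, ∑ c' ∈ A, ∏ a, (phi j c (x a) * phi j c' (x a)) =
      ∑ c' ∈ A, (∑ p, phi j c p * phi j c' p) ^ M := by
    intro c _
    rw [sum_comm]
    refine sum_congr rfl fun c' _ => ?_
    rw [Fintype.sum_pow]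
  rw [sum_congr rfl h2]
  have h3 : ∀ c ∈ A, ∀ c' ∈ A, (∑ p, phi j c p * phi j c' p) ^ M ≤
      (ρ ^ 2 + (if c' j ∈ ({c j} : Finset (Fin b)) then ρ else 0)) * N ^ M := by
    intro c _ c' _
    by_cases h : c j = c' j
    · simp only [phi_sq j c c' _ h]
      rw [sum_phi hζ, if_pos (by simp [h])]
      have e : ((b : ℝ) - 1) * (b : ℝ) ^ (ζ - 1) = (1 - 1 / (b : ℝ)) * N := by
        rw [hN, card_pat hζ]; field_simp
      rw [e, mul_pow]
      have : 0 ≤ ρ ^ 2 := sq_nonneg _
      have : 0 ≤ N ^ M := pow_nonneg hN0 _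
      nlinarith
    · rw [sum_phi_phi hζ j c c' h, if_neg (by simpa using fun h' => h h'.symm), add_zero]
      have hb2 : (2 : ℝ) ≤ b := by
        have : 2 ≤ b := by
          by_contra hcon
          have hb1 : b = 1 := by omega
          subst hb1
          exact h (Subsingleton.elim _ _)
        exact_mod_cast this
      have e : ((b : ℝ) - 2) * (b : ℝ) ^ (ζ - 1) = (1 - 2 / (b : ℝ)) * N := by
        rw [hN, card_pat hζ]; field_simp
      rw [e, mul_pow, hρ, ← pow_mul, mul_comm M 2, pow_mul]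
      refine mul_le_mul_of_nonneg_right (pow_le_pow_left₀ ?_ ?_ _) (pow_nonneg hN0 _)
      · rw [sub_nonneg, div_le_one hb0]; exact hb2
      · have : (1 - 1 / (b : ℝ)) ^ 2 = 1 - 2 / b + (1 / b) ^ 2 := by ring
        rw [this]
        nlinarith [sq_nonneg (1 / (b : ℝ))]
  have h4 : ∀ c ∈ A, ∑ c' ∈ A, (if c' j ∈ ({c j} : Finset (Fin b)) then ρ else 0) ≤
      (b : ℝ) ^ (ζ - 1) * ρ := by
    intro c _
    rw [← sum_filter, sum_const, nsmul_eq_mul]
    refine mul_le_mul_of_nonneg_right ?_ hρ0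
    have h5 := card_fiber (ζ := ζ) j ({c j} : Finset (Fin b))
    rw [card_singleton, Nat.cast_one, one_mul] at h5
    rw [← h5]
    exact_mod_cast card_le_card (filter_subset_filter _ (subset_univ _))
  calc ∑ c ∈ A, ∑ c' ∈ A, (∑ p, phi j c p * phi j c' p) ^ M
      ≤ ∑ c ∈ A, ∑ c' ∈ A, (ρ ^ 2 + (if c' j ∈ ({c j} : Finset (Fin b)) then ρ else 0)) * N ^ M :=
        sum_le_sum fun c hc => sum_le_sum fun c' hc' => h3 c hc c' hc'
    _ = (∑ c ∈ A, (A.card * ρ ^ 2 +
          ∑ c' ∈ A, (if c' j ∈ ({c j} : Finset (Fin b)) then ρ else 0))) * N ^ M := by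
        rw [sum_mul]
        refine sum_congr rfl fun c _ => ?_
        rw [← sum_mul, sum_add_distrib, sum_const, nsmul_eq_mul]
    _ ≤ (∑ c ∈ A, (A.card * ρ ^ 2 + (b : ℝ) ^ (ζ - 1) * ρ)) * N ^ M := by
        refine mul_le_mul_of_nonneg_right ?_ (pow_nonneg hN0 _)
        exact sum_le_sum fun c hc => by linarith [h4 c hc]
    _ = _ := by
        rw [sum_const, nsmul_eq_mul]
        ring

/-- **One group.** -/
lemma one_group {M : ℕ} (A : Finset (Fin ζ → Fin b)) (j : Fin ζ) {a' β : ℝ} (ha : 0 < a')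
    (hβ : 0 < β) (hA : a' * (Fintype.card (Fin ζ → Fin b) : ℝ) ≤ A.card)
    (hM : 1 ≤ M) (hρ1 : (1 - 1 / (b : ℝ)) ^ M ≤ 1 - 2 * β) :
    ((univ.filter fun x : Fin M → Fin ζ → Fin b =>
      ((hit A j x).card : ℝ) < β * A.card).card : ℝ) ≤
      1 / (a' * β ^ 2 * M) * (Fintype.card (Fin ζ → Fin b) : ℝ) ^ M := by
  have hb0 : (0 : ℝ) < b := by exact_mod_cast hb
  have hM0 : (0 : ℝ) < M := by exact_mod_cast hM
  set N : ℝ := (Fintype.card (Fin ζ → Fin b) : ℝ) with hN
  have hNeq : N = b * (b : ℝ) ^ (ζ - 1) := by rw [hN, card_pat hζ]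
  have hN0 : 0 < N := by rw [hNeq]; positivity
  set ρ : ℝ := (1 - 1 / (b : ℝ)) ^ M with hρ
  have h1b : (1 : ℝ) / b ≤ 1 := by
    rw [div_le_one hb0]; exact_mod_cast hb
  have hρ0 : 0 ≤ ρ := pow_nonneg (by linarith) _
  have hρb : ρ * M ≤ b := by
    have h1 : ρ ≤ Real.exp (-(M / b)) := by
      have h2 : 1 - 1 / (b : ℝ) ≤ Real.exp (-(1 / b)) := Real.one_sub_le_exp_neg _
      calc ρ ≤ (Real.exp (-(1 / b))) ^ M := pow_le_pow_left₀ (by linarith) h2 _
        _ = Real.exp (-(M / b)) := by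
          rw [← Real.exp_nat_mul]; congr 1; ring
    have h2 : Real.exp (-(M / b)) * (M / b) ≤ 1 := by
      have h3 := Real.add_one_le_exp ((M : ℝ) / b)
      have h4 : Real.exp (-(M / b)) * Real.exp (M / b) = 1 := by
        rw [← Real.exp_add]; simp
      have h5 : 0 ≤ Real.exp (-((M : ℝ) / b)) := (Real.exp_pos _).le
      nlinarith
    have h3 : ρ * (M / b) ≤ 1 :=
      (mul_le_mul_of_nonneg_right h1 (by positivity)).trans h2
    have h4 : ρ * M = ρ * (M / b) * b := by field_simp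
    rw [h4]
    nlinarith
  have hAc : 0 < (A.card : ℝ) := lt_of_lt_of_le (by positivity) hA
  set bad := univ.filter fun x : Fin M → Fin ζ → Fin b =>
      ((hit A j x).card : ℝ) < β * A.card with hbad
  have h1 : (bad.card : ℝ) * (β * A.card) ^ 2 ≤
      ∑ x : Fin M → Fin ζ → Fin b, (U A j x - ρ * A.card) ^ 2 := by
    calc (bad.card : ℝ) * (β * A.card) ^ 2 = ∑ x ∈ bad, (β * A.card) ^ 2 := by
          rw [sum_const, nsmul_eq_mul]
      _ ≤ ∑ x ∈ bad, (U A j x - ρ * A.card) ^ 2 := by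
          refine sum_le_sum fun x hx => ?_
          rw [hbad, mem_filter] at hx
          have h2 := hx.2
          rw [U_eq]
          refine pow_le_pow_left₀ (by positivity) ?_ _
          nlinarith
      _ ≤ _ := sum_le_sum_of_subset_of_nonneg (subset_univ _) fun _ _ _ => sq_nonneg _
  have h2 : ∑ x : Fin M → Fin ζ → Fin b, (U A j x - ρ * A.card) ^ 2 ≤
      A.card * (b : ℝ) ^ (ζ - 1) * ρ * N ^ M := by
    have h3 : ∑ x : Fin M → Fin ζ → Fin b, (U A j x - ρ * A.card) ^ 2 =
        ∑ x : Fin M → Fin ζ → Fin b, U A j x ^ 2 -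
          2 * (ρ * A.card) * ∑ x : Fin M → Fin ζ → Fin b, U A j x +
          (ρ * A.card) ^ 2 * N ^ M := by
      have : ∀ x : Fin M → Fin ζ → Fin b, (U A j x - ρ * A.card) ^ 2 =
          U A j x ^ 2 - 2 * (ρ * A.card) * U A j x + (ρ * A.card) ^ 2 := fun x => by ring
      simp only [this]
      rw [sum_add_distrib, sum_sub_distrib, ← mul_sum, sum_const, nsmul_eq_mul, card_univ,
        Fintype.card_fun, Fintype.card_fin]
      push_cast
      ring
    rw [h3, sum_U hζ hb]
    have h4 := sum_U_sq (M := M) hζ hb A j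
    nlinarith
  have h3 := h1.trans h2
  -- conclude
  have h4 : (bad.card : ℝ) * (β ^ 2 * A.card) ≤ (b : ℝ) ^ (ζ - 1) * ρ * N ^ M := by
    have : (bad.card : ℝ) * (β ^ 2 * A.card) * A.card ≤ ((b : ℝ) ^ (ζ - 1) * ρ * N ^ M) * A.card := by
      nlinarith
    exact le_of_mul_le_mul_right this hAc
  have h5 : (bad.card : ℝ) * (β ^ 2 * (a' * N)) ≤ (b : ℝ) ^ (ζ - 1) * ρ * N ^ M := by
    refine le_trans ?_ h4
    gcongr
  have h6 : (bad.card : ℝ) * (β ^ 2 * (a' * N)) * M ≤ N * N ^ M := by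
    have h7 : (bad.card : ℝ) * (β ^ 2 * (a' * N)) * M ≤ ((b : ℝ) ^ (ζ - 1) * ρ * N ^ M) * M :=
      mul_le_mul_of_nonneg_right h5 hM0.le
    refine h7.trans ?_
    have h8 : ((b : ℝ) ^ (ζ - 1) * ρ * N ^ M) * M = (b : ℝ) ^ (ζ - 1) * (ρ * M) * N ^ M := by ring
    rw [h8, hNeq, mul_comm (b : ℝ) ((b : ℝ) ^ (ζ - 1))]
    gcongr
  have h7 : (bad.card : ℝ) * (a' * β ^ 2 * M) ≤ N ^ M := by
    have : ((bad.card : ℝ) * (a' * β ^ 2 * M)) * N ≤ (N ^ M) * N := by nlinarith
    exact le_of_mul_le_mul_right this hN0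
  rw [one_div, ← div_eq_inv_mul, le_div_iff₀ (by positivity)]
  exact h7

end single

end Pool.Agent.U139.OSI
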