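import Mathlib
import Pool.Agent.U139.OSI.Occ

set_option autoImplicit false

open Finset

namespace Pool.Agent.U139.OSI

variable {n ζ b L M : ℕ}

/-- the patterns all of whose entries `k.1`, `k ∈ S`, are hit by the group `some k` -/
def good (e : Option (Fin ζ × Fin L) × Fin M → Fin n) (S : Finset (Fin ζ × Fin L))
    (s : Fin n → Fin ζ → Fin b) : Finset (Fin ζ → Fin b) :=
  univ.filter fun c => ∀ k ∈ S, ∃ a, s (e (some k, a)) k.1 = c k.1

/-- some coordinate of the group `none` has a good pattern -/
def Rich (e : Option (Fin ζ × Fin L) × Fin M → Fin n) (s : Fin n → Fin ζ → Fin b) : Prop :=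
  ∃ a, s (e (none, a)) ∈ good e univ s

lemma good_insert (e : Option (Fin ζ × Fin L) × Fin M → Fin n) (S : Finset (Fin ζ × Fin L))
    (k : Fin ζ × Fin L) (s : Fin n → Fin ζ → Fin b) :
    good e (insert k S) s = hit (good e S s) k.1 (s ∘ fun a => e (some k, a)) := by
  ext c
  simp only [good, hit, mem_filter, mem_univ, true_and, mem_insert, forall_eq_or_imp,
    Function.comp]
  tauto

lemma good_extend {e : Option (Fin ζ × Fin L) × Fin M → Fin n} (he : Function.Injective e)
    {S : Finset (Fin ζ × Fin L)} {k : Option (Fin ζ × Fin L)} (hk : ∀ k' ∈ S, some k' ≠ k)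
    (s : Fin n → Fin ζ → Fin b) (x : Fin M → Fin ζ → Fin b) :
    good e S (Function.extend (fun a => e (k, a)) x s) = good e S s := by
  unfold good
  refine filter_congr fun c _ => ?_
  refine forall₂_congr fun k' hk' => ?_
  refine exists_congr fun a => ?_
  rw [Function.extend_apply']
  rintro ⟨a', ha'⟩
  have := he ha'
  simp only [Prod.mk.injEq] at this
  exact hk k' hk' this.1.symm

lemma inj_group {e : Option (Fin ζ × Fin L) × Fin M → Fin n} (he : Function.Injective e)
    (k : Option (Fin ζ × Fin L)) : Function.Injective (fun a => e (k, a)) := by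
  intro a a' h
  have := he h
  simpa using this

lemma good_small (hζ : 1 ≤ ζ) (hb : 1 ≤ b) (hM : 1 ≤ M)
    {e : Option (Fin ζ × Fin L) × Fin M → Fin n} (he : Function.Injective e)
    {β : ℝ} (hβ : 0 < β) (hβ1 : β ≤ 1) (hρ1 : (1 - 1 / (b : ℝ)) ^ M ≤ 1 - 2 * β) (K : ℕ)
    (S : Finset (Fin ζ × Fin L)) (hS : S.card ≤ K) :
    ((univ.filter fun s : Fin n → Fin ζ → Fin b =>
      ((good e S s).card : ℝ) < β ^ S.card * (Fintype.card (Fin ζ → Fin b) : ℝ)).card : ℝ) ≤
      S.card * (1 / (β ^ K * β ^ 2 * M)) * (Fintype.card (Fin n → Fin ζ → Fin b) : ℝ) := by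
  classical
  have : Nonempty (Fin b) := ⟨⟨0, hb⟩⟩
  have hM0 : (0 : ℝ) < M := by exact_mod_cast hM
  set N : ℝ := (Fintype.card (Fin ζ → Fin b) : ℝ) with hN
  have hN0 : 0 < N := by
    have : 0 < Fintype.card (Fin ζ → Fin b) := Fintype.card_pos
    rw [hN]; exact_mod_cast this
  induction S using Finset.induction_on with
  | empty =>
    simp only [card_empty, pow_zero, one_mul, Nat.cast_zero, zero_mul]
    have : (univ.filter fun s : Fin n → Fin ζ → Fin b =>
      ((good e ∅ s).card : ℝ) < N) = ∅ := by
      refine filter_false_of_mem fun s _ => ?_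
      rw [not_lt, hN]
      have : good e ∅ s = univ := by
        unfold good
        refine filter_true_of_mem fun c _ k hk => ?_
        simp at hk
      rw [this, card_univ]
    rw [this]
    simp
  | insert k S hk ih =>
    rw [card_insert_of_notMem hk] at hS ⊢
    have ih' := ih (by omega)
    set B' : (Fin n → Fin ζ → Fin b) → Prop := fun s =>
      β ^ S.card * N ≤ ((good e S s).card : ℝ) ∧
      ((hit (good e S s) k.1 (s ∘ fun a => e (some k, a))).card : ℝ) < β * (good e S s).card with hB'
    have h1 : ((univ.filter B').card : ℝ) ≤ (1 / (β ^ K * β ^ 2 * M)) *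
        (Fintype.card (Fin n → Fin ζ → Fin b) : ℝ) := by
      refine card_le_of_resample (fun a => e (some k, a)) (inj_group he _) B' _ fun s => ?_
      have hg : ∀ x : Fin M → Fin ζ → Fin b,
          good e S (Function.extend (fun a => e (some k, a)) x s) = good e S s := fun x =>
        good_extend he (fun k' hk' h => hk (by
          have := Option.some_injective _ h
          rwa [← this])) s x
      have hx : ∀ x : Fin M → Fin ζ → Fin b,
          (Function.extend (fun a => e (some k, a)) x s) ∘ (fun a => e (some k, a)) = x := by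
        intro x
        funext a
        simp only [Function.comp]
        exact (inj_group he (some k)).extend_apply x s a
      have hB : ∀ x : Fin M → Fin ζ → Fin b, B' (Function.extend (fun a => e (some k, a)) x s) ↔
          (β ^ S.card * N ≤ ((good e S s).card : ℝ) ∧
            ((hit (good e S s) k.1 x).card : ℝ) < β * (good e S s).card) := by
        intro x
        simp only [hB', hg x, hx x]
      simp only [hB]
      have hc0 : (0 : ℝ) ≤ 1 / (β ^ K * β ^ 2 * M) := by positivity
      by_cases hA : β ^ S.card * N ≤ ((good e S s).card : ℝ)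
      · simp only [hA, true_and]
        refine (one_group hζ hb (good e S s) k.1 (pow_pos hβ S.card) hβ hA hM hρ1).trans ?_
        refine mul_le_mul_of_nonneg_right ?_ (by positivity)
        have hpow : β ^ K ≤ β ^ S.card := pow_le_pow_of_le_one hβ.le hβ1 (by omega)
        refine one_div_le_one_div_of_le (by positivity) ?_
        gcongr
      · simp only [hA, false_and, filter_false, card_empty, Nat.cast_zero]
        positivity
    have h2 : (univ.filter fun s : Fin n → Fin ζ → Fin b =>
        ((good e (insert k S) s).card : ℝ) < β ^ (S.card + 1) * N) ⊆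
        (univ.filter fun s : Fin n → Fin ζ → Fin b =>
          ((good e S s).card : ℝ) < β ^ S.card * N) ∪ univ.filter B' := by
      intro s hs
      rw [mem_union, mem_filter, mem_filter]
      rw [mem_filter] at hs
      by_cases h : ((good e S s).card : ℝ) < β ^ S.card * N
      · left; exact ⟨mem_univ _, h⟩
      · right
        push Not at h
        refine ⟨mem_univ _, h, ?_⟩
        rw [← good_insert]
        refine lt_of_lt_of_le hs.2 ?_
        rw [pow_succ, mul_comm (β ^ S.card) β, mul_assoc]
        exact mul_le_mul_of_nonneg_left h hβ.le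
    have h3 := (card_le_card h2).trans (card_union_le _ _)
    have h4 : (((univ.filter fun s : Fin n → Fin ζ → Fin b =>
        ((good e (insert k S) s).card : ℝ) < β ^ (S.card + 1) * N).card : ℝ)) ≤
        ((univ.filter fun s : Fin n → Fin ζ → Fin b =>
          ((good e S s).card : ℝ) < β ^ S.card * N).card : ℝ) + ((univ.filter B').card : ℝ) := by
      exact_mod_cast h3
    refine h4.trans ?_
    push_cast
    linarith

/-- **Rich positions have high probability.** -/
lemma not_rich (hζ : 1 ≤ ζ) (hb : 1 ≤ b) (hM : 1 ≤ M)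
    {e : Option (Fin ζ × Fin L) × Fin M → Fin n} (he : Function.Injective e)
    {β : ℝ} (hβ : 0 < β) (hβ1 : β ≤ 1) (hρ1 : (1 - 1 / (b : ℝ)) ^ M ≤ 1 - 2 * β) {K : ℕ}
    (hK : ζ * L ≤ K) [DecidablePred fun s : Fin n → Fin ζ → Fin b => ¬ Rich e s] :
    ((univ.filter fun s : Fin n → Fin ζ → Fin b => ¬ Rich e s).card : ℝ) ≤
      (K * (1 / (β ^ K * β ^ 2 * M)) + (1 - β ^ K) ^ M) *
        (Fintype.card (Fin n → Fin ζ → Fin b) : ℝ) := by
  classical
  have : Nonempty (Fin b) := ⟨⟨0, hb⟩⟩
  have hM0 : (0 : ℝ) < M := by exact_mod_cast hM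
  set N : ℝ := (Fintype.card (Fin ζ → Fin b) : ℝ) with hN
  have hN0 : 0 < N := by
    have : 0 < Fintype.card (Fin ζ → Fin b) := Fintype.card_pos
    rw [hN]; exact_mod_cast this
  have hcard : (univ : Finset (Fin ζ × Fin L)).card ≤ K := by
    rw [card_univ, Fintype.card_prod, Fintype.card_fin, Fintype.card_fin]; exact hK
  have h1 := good_small hζ hb hM he hβ hβ1 hρ1 K univ hcard
  have hpow : β ^ K ≤ β ^ (univ : Finset (Fin ζ × Fin L)).card :=
    pow_le_pow_of_le_one hβ.le hβ1 hcard
  set B' : (Fin n → Fin ζ → Fin b) → Prop := fun s =>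
      β ^ K * N ≤ ((good e univ s).card : ℝ) ∧ ∀ a, (s ∘ fun a => e (none, a)) a ∉ good e univ s
      with hB'
  have h2 : ((univ.filter B').card : ℝ) ≤ (1 - β ^ K) ^ M *
        (Fintype.card (Fin n → Fin ζ → Fin b) : ℝ) := by
    refine card_le_of_resample (fun a => e (none, a)) (inj_group he _) B' _ fun s => ?_
    have hg : ∀ x : Fin M → Fin ζ → Fin b,
        good e univ (Function.extend (fun a => e (none, a)) x s) = good e univ s := fun x =>
      good_extend he (fun k' _ h => by simp at h) s x
    have hx : ∀ x : Fin M → Fin ζ → Fin b,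
        (Function.extend (fun a => e (none, a)) x s) ∘ (fun a => e (none, a)) = x := by
      intro x
      funext a
      simp only [Function.comp]
      exact (inj_group he none).extend_apply x s a
    have hB : ∀ x : Fin M → Fin ζ → Fin b, B' (Function.extend (fun a => e (none, a)) x s) ↔
        (β ^ K * N ≤ ((good e univ s).card : ℝ) ∧ ∀ a, x a ∉ good e univ s) := by
      intro x
      simp only [hB', hg x, hx x]
    simp only [hB]
    have hc0 : (0 : ℝ) ≤ 1 - β ^ K := by
      have := pow_le_one₀ (n := K) hβ.le hβ1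
      linarith
    by_cases hA : β ^ K * N ≤ ((good e univ s).card : ℝ)
    · simp only [hA, true_and]
      have h3 : (univ.filter fun x : Fin M → Fin ζ → Fin b => ∀ a, x a ∉ good e univ s) =
          Fintype.piFinset fun _ => univ \ good e univ s := by
        ext x
        simp
      rw [h3, Fintype.card_piFinset_const, Nat.cast_pow, ← mul_pow]
      refine pow_le_pow_left₀ (Nat.cast_nonneg _) ?_ _
      rw [card_sdiff_of_subset (subset_univ _), Nat.cast_sub (card_le_card (subset_univ _)),
        card_univ]
      linarith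
    · simp only [hA, false_and, filter_false, card_empty, Nat.cast_zero]
      positivity
  have h3 : (univ.filter fun s : Fin n → Fin ζ → Fin b => ¬ Rich e s) ⊆
      (univ.filter fun s : Fin n → Fin ζ → Fin b =>
        ((good e univ s).card : ℝ) < β ^ (univ : Finset (Fin ζ × Fin L)).card * N) ∪
        univ.filter B' := by
    intro s hs
    rw [mem_filter] at hs
    rw [mem_union, mem_filter, mem_filter]
    by_cases h : ((good e univ s).card : ℝ) < β ^ (univ : Finset (Fin ζ × Fin L)).card * N
    · left; exact ⟨mem_univ _, h⟩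
    · right
      push Not at h
      refine ⟨mem_univ _, le_trans (mul_le_mul_of_nonneg_right hpow hN0.le) h, fun a ha => ?_⟩
      exact hs.2 ⟨a, ha⟩
  have h4 := (card_le_card h3).trans (card_union_le _ _)
  have h5 : ((univ.filter fun s : Fin n → Fin ζ → Fin b => ¬ Rich e s).card : ℝ) ≤
      ((univ.filter fun s : Fin n → Fin ζ → Fin b =>
        ((good e univ s).card : ℝ) < β ^ (univ : Finset (Fin ζ × Fin L)).card * N).card : ℝ) +
      ((univ.filter B').card : ℝ) := by exact_mod_cast h4
  refine h5.trans ?_
  have h6 : ((univ : Finset (Fin ζ × Fin L)).card : ℝ) * (1 / (β ^ K * β ^ 2 * M)) *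
      (Fintype.card (Fin n → Fin ζ → Fin b) : ℝ) ≤ K * (1 / (β ^ K * β ^ 2 * M)) *
      (Fintype.card (Fin n → Fin ζ → Fin b) : ℝ) := by
    have : ((univ : Finset (Fin ζ × Fin L)).card : ℝ) ≤ K := by exact_mod_cast hcard
    gcongr
  linarith

end Pool.Agent.U139.OSI
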