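import Mathlib

/-!
# The approximate kernel vector

For positions `s` and signs `σ`, if each of the `ζ` buckets of the coordinate `i` contains `L` further
coordinates `N j l`, then `x = e_i - ∑ j l, ± e_{N j l} / L` has `x_i = 1` and the sign-average of
`‖Ωᵀ x‖²` is `(ζ - 1) / L`.
-/

set_option autoImplicit false

open Finset

namespace Pool.Agent.U139.OSI

variable {n ζ b L : ℕ}

/-- the sign of a Boolean -/
def sg (t : Bool) : ℝ := if t then 1 else -1

lemma sg_not (t : Bool) : sg (!t) = - sg t := by cases t <;> simp [sg]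

lemma sg_sq (t : Bool) : sg t * sg t = 1 := by cases t <;> simp [sg]

/-- flip the sign at `(u, k)` -/
def flip (u : Fin n) (k : Fin ζ) (σ : Fin n → Fin ζ → Bool) : Fin n → Fin ζ → Bool :=
  fun u' k' => if u' = u ∧ k' = k then !σ u' k' else σ u' k'

lemma flip_flip (u : Fin n) (k : Fin ζ) (σ : Fin n → Fin ζ → Bool) : flip u k (flip u k σ) = σ := by
  funext u' k'
  unfold flip
  split_ifs <;> simp

lemma sg_flip_self (u : Fin n) (k : Fin ζ) (σ : Fin n → Fin ζ → Bool) :
    sg (flip u k σ u k) = - sg (σ u k) := by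
  simp [flip, sg_not]

lemma sg_flip_ne {u u' : Fin n} {k k' : Fin ζ} (h : ¬ (u' = u ∧ k' = k))
    (σ : Fin n → Fin ζ → Bool) : sg (flip u k σ u' k') = sg (σ u' k') := by
  simp only [flip, if_neg h]

lemma sum_eq_zero_of_flip (f : (Fin n → Fin ζ → Bool) → ℝ) (u : Fin n) (k : Fin ζ)
    (h : ∀ σ, f (flip u k σ) = - f σ) : ∑ σ, f σ = 0 := by
  have h1 : ∑ σ, f (flip u k σ) = ∑ σ, f σ :=
    Equiv.sum_comp (Function.Involutive.toPerm (flip u k) (flip_flip u k)) f
  simp only [h, sum_neg_distrib] at h1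
  linarith

/-- the characters which occur -/
noncomputable def chi (N : Fin ζ → Fin L → Fin n) (i : Fin n) (j : Fin ζ) (a : Fin ζ × Fin L)
    (σ : Fin n → Fin ζ → Bool) : ℝ :=
  sg (σ (N a.1 a.2) j) * sg (σ i a.1) * sg (σ (N a.1 a.2) a.1)

lemma chi_sq (N : Fin ζ → Fin L → Fin n) (i : Fin n) (j : Fin ζ) (a : Fin ζ × Fin L)
    (σ : Fin n → Fin ζ → Bool) : chi N i j a σ * chi N i j a σ = 1 := by
  unfold chi
  have h1 := sg_sq (σ (N a.1 a.2) j)
  have h2 := sg_sq (σ i a.1)
  have h3 := sg_sq (σ (N a.1 a.2) a.1)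
  calc _ = (sg (σ (N a.1 a.2) j) * sg (σ (N a.1 a.2) j)) * (sg (σ i a.1) * sg (σ i a.1)) *
        (sg (σ (N a.1 a.2) a.1) * sg (σ (N a.1 a.2) a.1)) := by ring
    _ = 1 := by rw [h1, h2, h3]; norm_num

lemma chi_orth {N : Fin ζ → Fin L → Fin n} (hN : ∀ j, Function.Injective (N j)) {i : Fin n}
    (hi : ∀ j l, N j l ≠ i) (j : Fin ζ) {a a' : Fin ζ × Fin L} (haa : a ≠ a') (ha : a.1 ≠ j)
    (_ha' : a'.1 ≠ j) : ∑ σ, chi N i j a σ * chi N i j a' σ = 0 := by
  by_cases h : N a.1 a.2 = N a'.1 a'.2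
  · have h1 : a.1 ≠ a'.1 := by
      intro h1
      apply haa
      rw [← h1] at h
      exact Prod.ext h1 (hN _ h)
    refine sum_eq_zero_of_flip _ i a.1 fun σ => ?_
    unfold chi
    rw [sg_flip_self, sg_flip_ne (by intro h'; exact hi _ _ h'.1),
      sg_flip_ne (by intro h'; exact hi _ _ h'.1),
      sg_flip_ne (by intro h'; exact hi _ _ h'.1),
      sg_flip_ne (by intro h'; exact h1 h'.2.symm),
      sg_flip_ne (by intro h'; exact hi _ _ h'.1)]
    ring
  · refine sum_eq_zero_of_flip _ (N a.1 a.2) j fun σ => ?_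
    unfold chi
    rw [sg_flip_self, sg_flip_ne (by intro h'; exact hi _ _ h'.1.symm),
      sg_flip_ne (by intro h'; exact ha h'.2),
      sg_flip_ne (by intro h'; exact h h'.1.symm),
      sg_flip_ne (by intro h'; exact hi _ _ h'.1.symm),
      sg_flip_ne (by intro h'; exact h h'.1.symm)]
    ring

/-- the entry of `√ζ Ωᵀ x` at `(j, p)` -/
noncomputable def ent (σ : Fin n → Fin ζ → Bool) (s : Fin n → Fin ζ → Fin b) (x : Fin n → ℝ)
    (j : Fin ζ) (p : Fin b) : ℝ := ∑ u, (if s u j = p then sg (σ u j) else 0) * x u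

/-- the test vector -/
noncomputable def tv (N : Fin ζ → Fin L → Fin n) (i : Fin n) (σ : Fin n → Fin ζ → Bool) :
    Fin n → ℝ := fun u =>
  (if u = i then 1 else 0) -
    ∑ a : Fin ζ × Fin L, (if u = N a.1 a.2 then sg (σ i a.1) * sg (σ u a.1) / L else 0)

lemma tv_self {N : Fin ζ → Fin L → Fin n} {i : Fin n} (hi : ∀ j l, N j l ≠ i)
    (σ : Fin n → Fin ζ → Bool) : tv N i σ i = 1 := by
  unfold tv
  rw [if_pos rfl, sum_eq_zero, sub_zero]
  intro a _
  rw [if_neg (fun h => hi _ _ h.symm)]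

lemma ent_tv {N : Fin ζ → Fin L → Fin n} {i : Fin n} (hL : 1 ≤ L) (σ : Fin n → Fin ζ → Bool)
    (s : Fin n → Fin ζ → Fin b) (hs : ∀ j l, s (N j l) j = s i j) (j : Fin ζ) (p : Fin b) :
    ent σ s (tv N i σ) j p = -(1 / (L : ℝ)) * ∑ a ∈ univ.filter (fun a : Fin ζ × Fin L => a.1 ≠ j),
      (if s (N a.1 a.2) j = p then chi N i j a σ else 0) := by
  have hL0 : (L : ℝ) ≠ 0 := by positivity
  have h1 : ∀ a : Fin ζ × Fin L, ∑ u, (if s u j = p then sg (σ u j) else 0) *
      (if u = N a.1 a.2 then sg (σ i a.1) * sg (σ u a.1) / L else 0) =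
      1 / L * (if s (N a.1 a.2) j = p then chi N i j a σ else 0) := by
    intro a
    simp only [mul_ite, mul_zero, sum_ite_eq', mem_univ, if_true]
    unfold chi
    split_ifs <;> ring
  have h2 : ∀ l : Fin L, (if s (N j l) j = p then chi N i j (j, l) σ else 0) =
      (if s i j = p then sg (σ i j) else 0) := by
    intro l
    rw [hs]
    unfold chi
    simp only
    have := sg_sq (σ (N j l) j)
    split_ifs
    · calc sg (σ (N j l) j) * sg (σ i j) * sg (σ (N j l) j) =
          (sg (σ (N j l) j) * sg (σ (N j l) j)) * sg (σ i j) := by ring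
        _ = _ := by rw [this, one_mul]
    · rfl
  have h3 : ∑ a : Fin ζ × Fin L, (if s (N a.1 a.2) j = p then chi N i j a σ else 0) =
      L * (if s i j = p then sg (σ i j) else 0) +
      ∑ a ∈ univ.filter (fun a : Fin ζ × Fin L => a.1 ≠ j),
        (if s (N a.1 a.2) j = p then chi N i j a σ else 0) := by
    rw [← sum_filter_add_sum_filter_not univ (fun a : Fin ζ × Fin L => a.1 = j)]
    congr 1
    rw [sum_filter, Fintype.sum_prod_type, sum_eq_single j]
    · simp only [if_true]
      rw [sum_congr rfl fun l _ => h2 l, sum_const, card_univ, Fintype.card_fin, nsmul_eq_mul]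
    · intro k _ hk
      simp [hk]
    · simp
  calc ent σ s (tv N i σ) j p
      = (if s i j = p then sg (σ i j) else 0) - ∑ a : Fin ζ × Fin L,
        ∑ u, (if s u j = p then sg (σ u j) else 0) *
          (if u = N a.1 a.2 then sg (σ i a.1) * sg (σ u a.1) / L else 0) := by
        unfold ent tv
        simp only [mul_sub, sum_sub_distrib]
        congr 1
        · simp
        · rw [sum_comm]
          exact sum_congr rfl fun u _ => mul_sum _ _ _
    _ = (if s i j = p then sg (σ i j) else 0) -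
        1 / L * ∑ a : Fin ζ × Fin L, (if s (N a.1 a.2) j = p then chi N i j a σ else 0) := by
        rw [sum_congr rfl fun a _ => h1 a, ← mul_sum]
    _ = _ := by
        rw [h3]
        field_simp
        ring

/-- the second moment over the signs -/
lemma sum_ent_sq {N : Fin ζ → Fin L → Fin n} (hN : ∀ j, Function.Injective (N j)) {i : Fin n}
    (hi : ∀ j l, N j l ≠ i) (hL : 1 ≤ L) (hζ : 1 ≤ ζ)
    (s : Fin n → Fin ζ → Fin b) (hs : ∀ j l, s (N j l) j = s i j) :
    ∑ σ : Fin n → Fin ζ → Bool, ∑ j, ∑ p, ent σ s (tv N i σ) j p ^ 2 =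
      (ζ : ℝ) * ((ζ : ℝ) - 1) / L * Fintype.card (Fin n → Fin ζ → Bool) := by
  have hL0 : (L : ℝ) ≠ 0 := by positivity
  rw [sum_comm]
  have key : ∀ j : Fin ζ, ∑ σ : Fin n → Fin ζ → Bool, ∑ p, ent σ s (tv N i σ) j p ^ 2 =
      ((ζ : ℝ) - 1) / L * Fintype.card (Fin n → Fin ζ → Bool) := by
    intro j
    rw [sum_comm]
    set T := univ.filter (fun a : Fin ζ × Fin L => a.1 ≠ j) with hT
    have h1 : ∀ p : Fin b, ∑ σ : Fin n → Fin ζ → Bool, ent σ s (tv N i σ) j p ^ 2 =
        1 / (L : ℝ) ^ 2 * ∑ a ∈ T, (if s (N a.1 a.2) j = p then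
          (Fintype.card (Fin n → Fin ζ → Bool) : ℝ) else 0) := by
      intro p
      have h2 : ∀ σ : Fin n → Fin ζ → Bool, ent σ s (tv N i σ) j p ^ 2 =
          1 / (L : ℝ) ^ 2 * ∑ a ∈ T, ∑ a' ∈ T, (if s (N a.1 a.2) j = p then
            (if s (N a'.1 a'.2) j = p then chi N i j a σ * chi N i j a' σ else 0) else 0) := by
        intro σ
        rw [ent_tv hL σ s hs, mul_pow, sq (∑ a ∈ T, _), sum_mul_sum]
        congr 1
        · field_simp
        · refine sum_congr rfl fun a _ => sum_congr rfl fun a' _ => ?_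
          split_ifs <;> simp
      simp only [h2]
      rw [← mul_sum, sum_comm]
      congr 1
      refine sum_congr rfl fun a ha => ?_
      rw [sum_comm, sum_eq_single a]
      · split_ifs
        · simp only [chi_sq, sum_const, card_univ, nsmul_eq_mul, mul_one]
        · simp
      · intro a' ha' hne
        rw [hT, mem_filter] at ha ha'
        split_ifs
        · exact chi_orth hN hi j (Ne.symm hne) ha.2 ha'.2
        · simp
        · simp
      · intro h; exact absurd ha h
    simp only [h1]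
    rw [← mul_sum, sum_comm]
    simp only [sum_ite_eq, mem_univ, if_true, sum_const, nsmul_eq_mul]
    have hcard : (T.card : ℝ) = ((ζ : ℝ) - 1) * L := by
      have : T = (univ.erase j) ×ˢ (univ : Finset (Fin L)) := by
        ext a
        simp [hT]
      rw [this, card_product, card_erase_of_mem (mem_univ j), card_univ, card_univ,
        Fintype.card_fin, Fintype.card_fin]
      push_cast [Nat.cast_sub hζ]
      ring
    rw [hcard]
    field_simp
  rw [sum_congr rfl fun j _ => key j, sum_const, card_univ, Fintype.card_fin, nsmul_eq_mul]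
  ring

end Pool.Agent.U139.OSI
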